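import Pool.Agent.Run7.h635.OD.Lev
import Pool.Agent.Run7.h323.OD.AG
import Pool.Agent.Run7.h600.OD.ThetaA

/-! EIS: Eisenstein series of weight 4 and 6 through theta functions. -/

set_option autoImplicit false

open PowerSeries

namespace Run7.h635.OD.Eis

open H809.OD MatrixGroups UpperHalfPlane Run7.h323.OD
open scoped ModularForm

lemma hs_congr {f g : ℕ → ℂ} {a b : ℂ} (h : HasSum f a) (e : ∀ n, g n = f n) (e2 : b = a) :
    HasSum g b := by
  rw [show g = f from funext e, e2]; exact h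

/-- the rational power series `F` converges to `v` at `x`. -/
def Ev (F : ℚ⟦X⟧) (x v : ℂ) : Prop := HasSum (fun n => ((coeff n F : ℚ) : ℂ) * x ^ n) v

lemma Ev.uniq {F : ℚ⟦X⟧} {x a b : ℂ} (h : Ev F x a) (h' : Ev F x b) : a = b := HasSum.unique h h'

lemma Ev.add {F G : ℚ⟦X⟧} {x a b : ℂ} (h : Ev F x a) (h' : Ev G x b) : Ev (F + G) x (a + b) := by
  unfold Ev at *
  convert HasSum.add h h' using 1
  funext n
  rw [map_add]; push_cast; ring

lemma Ev.neg {F : ℚ⟦X⟧} {x a : ℂ} (h : Ev F x a) : Ev (-F) x (-a) := by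
  unfold Ev at *
  refine hs_congr (HasSum.neg h) (fun n => ?_) rfl
  rw [map_neg]; push_cast; ring

lemma Ev.sub {F G : ℚ⟦X⟧} {x a b : ℂ} (h : Ev F x a) (h' : Ev G x b) : Ev (F - G) x (a - b) := by
  rw [sub_eq_add_neg, sub_eq_add_neg]; exact h.add h'.neg

lemma Ev.mul {F G : ℚ⟦X⟧} {x a b : ℂ} (h : Ev F x a) (h' : Ev G x b) : Ev (F * G) x (a * b) := by
  unfold Ev at *
  have hs := h.summable.norm
  have hs' := h'.summable.norm
  have e : (fun n => ((coeff n (F * G) : ℚ) : ℂ) * x ^ n) = fun n =>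
      ∑ kl ∈ Finset.HasAntidiagonal.antidiagonal n, (((coeff kl.1 F : ℚ) : ℂ) * x ^ kl.1) *
        (((coeff kl.2 G : ℚ) : ℂ) * x ^ kl.2) := by
    funext n
    rw [coeff_mul, Rat.cast_sum, Finset.sum_mul]
    refine Finset.sum_congr rfl fun kl hkl => ?_
    rw [← Finset.HasAntidiagonal.mem_antidiagonal.1 hkl, pow_add]
    push_cast
    ring
  rw [e, ← h.tsum_eq, ← h'.tsum_eq,
    tsum_mul_tsum_eq_tsum_sum_antidiagonal_of_summable_norm hs hs']
  exact (summable_norm_sum_mul_antidiagonal_of_summable_norm hs hs').of_norm.hasSum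

lemma Ev.one (x : ℂ) : Ev 1 x 1 := by
  unfold Ev
  convert hasSum_ite_eq (0 : ℕ) (1 : ℂ) using 1
  funext n
  rw [coeff_one]
  split_ifs with h
  · subst h; simp
  · simp

lemma Ev.pow {F : ℚ⟦X⟧} {x a : ℂ} (h : Ev F x a) (n : ℕ) : Ev (F ^ n) x (a ^ n) := by
  induction n with
  | zero => simpa using Ev.one x
  | succ n ih => rw [pow_succ, pow_succ]; exact ih.mul h

lemma Ev.nat (m : ℕ) (x : ℂ) : Ev (m : ℚ⟦X⟧) x m := by
  induction m with
  | zero =>
    unfold Ev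
    simp
  | succ m ih =>
    push_cast
    exact ih.add (Ev.one x)

lemma Ev.ng {F : ℚ⟦X⟧} {x a : ℂ} (h : Ev F (-x) a) : Ev (ng F) x a := by
  unfold Ev at *
  convert h using 1
  funext n
  rw [H809.OD.coeff_ng, neg_pow]
  push_cast
  ring

lemma Ev_dbl_iff {F : ℚ⟦X⟧} {x a : ℂ} : Ev (dbl F) x a ↔ Ev F (x ^ 2) a := by
  unfold Ev
  have hinj : Function.Injective (fun n : ℕ => 2 * n) := fun a b hab => by
    simpa using hab
  rw [← hinj.hasSum_iff]
  · refine iff_of_eq (congrArg (fun f => HasSum f a) ?_)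
    funext n
    simp only [Function.comp]
    rw [H809.OD.coeff_dbl_even, pow_mul]
  · intro n hn
    rw [H809.OD.coeff_dbl_odd, Rat.cast_zero, zero_mul]
    rintro ⟨m, rfl⟩
    exact hn ⟨m, rfl⟩

/-- the nome. -/
noncomputable def nm (z : ℂ) : ℂ := Complex.exp (Real.pi * Complex.I * z)

lemma nm_add_one (z : ℂ) : nm (z + 1) = - nm z := by
  unfold nm
  rw [mul_add, Complex.exp_add, mul_one, Complex.exp_pi_mul_I]
  ring

lemma nm_two (z : ℂ) : nm (2 * z) = nm z ^ 2 := by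
  unfold nm
  rw [← Complex.exp_nat_mul]
  congr 1
  push_cast
  ring

lemma Ev_phi {z : ℂ} (hz : 0 < z.im) : Ev phi (nm z) (jacobiTheta z) := by
  have h := (hasSum_nat_jacobiTheta hz).mul_left 2
  have hinj : Function.Injective (fun n : ℕ => (n + 1) ^ 2) := fun a b hab => by
    have : (a + 1) ^ 2 = (b + 1) ^ 2 := hab
    have h2 := Nat.pow_left_injective (n := 2) (by norm_num) this
    omega
  have key : HasSum (fun n : ℕ => (((if n = 0 then 0 else if IsSquare n then 2 else 0 : ℚ)) : ℂ) *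
      (nm z) ^ n) (2 * ((jacobiTheta z - 1) / 2)) := by
    rw [← hinj.hasSum_iff]
    · refine hs_congr h (fun n => ?_) rfl
      simp only [Function.comp]
      rw [if_neg (by positivity), if_pos ⟨n + 1, sq _⟩]
      unfold nm
      rw [← Complex.exp_nat_mul]
      push_cast
      congr 2
      ring
    · intro n hn
      by_cases h0 : n = 0
      · rw [if_pos h0]; simp
      · rw [if_neg h0, if_neg, Rat.cast_zero, zero_mul]
        rintro ⟨m, hm⟩
        apply hn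
        rcases Nat.eq_zero_or_pos m with rfl | hm0
        · simp at hm; exact absurd hm h0
        · refine ⟨m - 1, ?_⟩
          show (m - 1 + 1) ^ 2 = n
          rw [Nat.sub_add_cancel hm0, hm, sq]
  unfold Ev
  have h1 := (Ev.one (nm z))
  unfold Ev at h1
  have h2 := h1.add key
  convert h2 using 1
  · funext n
    rw [coeff_one, phi, coeff_mk]
    by_cases h0 : n = 0
    · subst h0; simp
    · simp [h0]
  · ring

lemma Ev_ng_phi {z : ℂ} (hz : 0 < z.im) : Ev (ng phi) (nm z) (jacobiTheta (z + 1)) := by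
  apply Ev.ng
  rw [← nm_add_one]
  exact Ev_phi (by simpa using hz)

lemma ag1_ev {z : ℂ} (hz : 0 < z.im) :
    jacobiTheta z ^ 2 + jacobiTheta (z + 1) ^ 2 = 2 * jacobiTheta (2 * z) ^ 2 := by
  have h1 := ((Ev_phi hz).pow 2).add ((Ev_ng_phi hz).pow 2)
  have hz2 : 0 < (2 * z).im := by simpa using hz
  have h2 : Ev (dbl phi) (nm z) (jacobiTheta (2 * z)) := by
    rw [Ev_dbl_iff, ← nm_two]; exact Ev_phi hz2
  have h3 := (Ev.nat 2 (nm z)).mul (h2.pow 2)
  have e : phi ^ 2 + ng phi ^ 2 = ((2 : ℕ) : ℚ⟦X⟧) * dbl phi ^ 2 := by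
    rw [AG1]; norm_num
  rw [← e] at h3
  have := h1.uniq h3
  exact_mod_cast this

lemma ag2_ev {z : ℂ} (hz : 0 < z.im) :
    jacobiTheta z * jacobiTheta (z + 1) = jacobiTheta (2 * z + 1) ^ 2 := by
  have h1 := (Ev_phi hz).mul (Ev_ng_phi hz)
  have hz2 : 0 < (2 * z).im := by simpa using hz
  have h2 : Ev (dbl (ng phi)) (nm z) (jacobiTheta (2 * z + 1)) := by
    rw [Ev_dbl_iff, ← nm_two]; exact Ev_ng_phi hz2
  have h3 := h2.pow 2
  rw [← AG2] at h3
  exact h1.uniq h3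

/-- `b = θ₃⁴` -/
noncomputable def bb (z : ℂ) : ℂ := jacobiTheta z ^ 4
/-- `c = θ₄⁴` -/
noncomputable def cc (z : ℂ) : ℂ := jacobiTheta (z + 1) ^ 4

lemma bb_T (z : ℂ) : bb (z + 1) = cc z := rfl

lemma cc_T (z : ℂ) : cc (z + 1) = bb z := by
  unfold cc bb
  rw [show z + 1 + 1 = 2 + z by ring, jacobiTheta_two_add]

lemma sq_S {z : ℂ} (hz : 0 < z.im) : jacobiTheta (-1 / z) ^ 2 = -Complex.I * z * jacobiTheta z ^ 2 := by
  have h := jacobiTheta_S_smul ⟨z, hz⟩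
  rw [modular_S_smul] at h
  simp only at h
  have e : (-z)⁻¹ = -1 / z := by
    rw [neg_div, one_div, inv_neg]
  rw [e] at h
  rw [h, mul_pow, ← Complex.cpow_nat_mul]
  norm_num

lemma im_S {z : ℂ} (hz : 0 < z.im) : 0 < (-1 / z).im := by
  have h := (ModularGroup.S • (⟨z, hz⟩ : ℍ)).im_pos
  rw [modular_S_smul] at h
  have e : (-z)⁻¹ = -1 / z := by
    rw [neg_div, one_div, inv_neg]
  rw [← e]
  exact h

lemma bb_S {z : ℂ} (hz : 0 < z.im) : bb (-1 / z) = - z ^ 2 * bb z := by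
  unfold bb
  rw [show (4 : ℕ) = 2 * 2 from rfl, pow_mul, sq_S hz, mul_pow, mul_pow, neg_pow, Complex.I_sq,
    pow_mul]
  ring

lemma cc_S {z : ℂ} (hz : 0 < z.im) : cc (-1 / z) = - z ^ 2 * (bb z - cc z) := by
  have hz2 : 0 < (z / 2).im := by
    rw [show z / 2 = ((1 / 2 : ℝ) : ℂ) * z by push_cast; ring, Complex.im_ofReal_mul]
    positivity
  have h1 := ag1_ev (im_S hz)
  have e2 : 2 * (-1 / z) = -1 / (z / 2) := by
    rw [div_div_eq_mul_div]; ring
  rw [e2, sq_S hz, sq_S hz2] at h1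
  have h3 := ag1_ev hz2
  have h4 := ag2_ev hz2
  rw [mul_div_cancel₀ z (two_ne_zero' ℂ)] at h3 h4
  have h5 : jacobiTheta (-1 / z + 1) ^ 2 = -Complex.I * z * (jacobiTheta (z / 2) ^ 2 - jacobiTheta z ^ 2) := by
    linear_combination h1
  unfold cc bb
  rw [show (4 : ℕ) = 2 * 2 from rfl, pow_mul (jacobiTheta (-1 / z + 1)), h5]
  have hI : Complex.I ^ 2 = -1 := Complex.I_sq
  have h6 : (jacobiTheta (z / 2) ^ 2 - jacobiTheta z ^ 2) ^ 2 =
      jacobiTheta z ^ 4 - jacobiTheta (z + 1) ^ 4 := by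
    have h7 : jacobiTheta (z / 2) ^ 2 * jacobiTheta (z / 2 + 1) ^ 2 = jacobiTheta (z + 1) ^ 4 := by
      rw [← mul_pow, h4]; ring
    linear_combination (jacobiTheta (z / 2) ^ 2) * h3 - h7
  have e7 : (-Complex.I * z * (jacobiTheta (z / 2) ^ 2 - jacobiTheta z ^ 2)) ^ 2 =
      - z ^ 2 * (jacobiTheta (z / 2) ^ 2 - jacobiTheta z ^ 2) ^ 2 := by
    linear_combination (z ^ 2 * (jacobiTheta (z / 2) ^ 2 - jacobiTheta z ^ 2) ^ 2) * hI
  rw [e7, h6]


/-- `E₄ = b² - b c + c²`. -/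
noncomputable def GG (z : ℂ) : ℂ := bb z ^ 2 - bb z * cc z + cc z ^ 2
/-- `E₆ = (2 b - c) (b + c) (2 c - b) / 2`. -/
noncomputable def HH (z : ℂ) : ℂ := (2 * bb z - cc z) * (bb z + cc z) * (2 * cc z - bb z) / 2

lemma GG_T (z : ℂ) : GG (z + 1) = GG z := by
  unfold GG; rw [bb_T, cc_T]; ring

lemma HH_T (z : ℂ) : HH (z + 1) = HH z := by
  unfold HH; rw [bb_T, cc_T]; ring

lemma GG_S {z : ℂ} (hz : 0 < z.im) : GG (-1 / z) = z ^ 4 * GG z := by
  unfold GG; rw [bb_S hz, cc_S hz]; ring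

lemma HH_S {z : ℂ} (hz : 0 < z.im) : HH (-1 / z) = z ^ 6 * HH z := by
  unfold HH; rw [bb_S hz, cc_S hz]; ring

set_option backward.isDefEq.respectTransparency.types false in
lemma slash_T {F : ℂ → ℂ} (k : ℤ) (h : ∀ z, F (z + 1) = F z) :
    ((fun z : ℍ => F z) ∣[k] ModularGroup.T) = fun z : ℍ => F z := by
  ext z
  rw [ModularForm.SL_slash_apply, denom, modular_T_smul, ModularGroup.T]
  simp [add_comm (1 : ℂ), h]

set_option backward.isDefEq.respectTransparency.types false in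
lemma slash_S {F : ℂ → ℂ} (k : ℕ) (h : ∀ z : ℂ, 0 < z.im → F (-1 / z) = z ^ k * F z) :
    ((fun z : ℍ => F z) ∣[(k : ℤ)] ModularGroup.S) = fun z : ℍ => F z := by
  ext z
  suffices F (-(↑z)⁻¹) * ((z : ℂ) ^ k)⁻¹ = F z by
    rw [ModularForm.SL_slash_apply, UpperHalfPlane.modular_S_smul]
    simpa [denom, ModularGroup.S]
  have hz : (z : ℂ) ≠ 0 := z.ne_zero
  have e : (-(z : ℂ)⁻¹) = -1 / z := by rw [neg_div, one_div]
  rw [e, h z z.im_pos]
  field_simp

/-- the level one form attached to `F` -/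
noncomputable def mkForm (F : ℂ → ℂ) (k : ℕ) (g : ℕ → ℂ) (hT : ∀ z, F (z + 1) = F z)
    (hS : ∀ z : ℂ, 0 < z.im → F (-1 / z) = z ^ k * F z)
    (hd : ∀ z : ℂ, 0 < z.im → DifferentiableAt ℂ F z)
    (hg : ∀ z : ℍ, HasSum (fun n => g n • Function.Periodic.qParam 1 z ^ n) (F z)) :
    ModularForm 𝒮ℒ (k : ℤ) where
  toFun := fun z : ℍ => F z
  slash_action_eq' A hA := by
    obtain ⟨A, rfl⟩ := hA
    exact SlashInvariantForm.slash_action_generators_SL2Z (slash_S k hS) (slash_T k hT) A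
  holo' := by
    rw [UpperHalfPlane.mdifferentiable_iff]
    refine .congr (fun z hz ↦ (hd z hz).differentiableWithinAt) fun z hz ↦ ?_
    simp [ofComplex_apply_of_im_pos hz]
  bdd_at_cusps' hc := by
    rw [Subgroup.IsArithmetic.isCusp_iff_isCusp_SL2Z] at hc
    rw [OnePoint.isBoundedAt_iff_forall_SL2Z hc]
    intro γ _
    rw [SlashInvariantForm.slash_action_generators_SL2Z (slash_S k hS) (slash_T k hT)]
    exact isBoundedAtImInfty_of_hasSum_qExpansion one_pos hg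

lemma mkForm_qExpansion (F : ℂ → ℂ) (k : ℕ) (g : ℕ → ℂ) (hT : ∀ z, F (z + 1) = F z)
    (hS : ∀ z : ℂ, 0 < z.im → F (-1 / z) = z ^ k * F z)
    (hd : ∀ z : ℂ, 0 < z.im → DifferentiableAt ℂ F z)
    (hg : ∀ z : ℍ, HasSum (fun n => g n • Function.Periodic.qParam 1 z ^ n) (F z)) :
    qExpansion 1 (mkForm F k g hT hS hd hg) = PowerSeries.mk g := by
  ext n
  rw [coeff_mk]
  exact (ModularFormClass.qExpansion_coeff_unique (f := mkForm F k g hT hS hd hg) one_pos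
    one_mem_strictPeriods_SL hg n).symm

lemma qp_eq (z : ℂ) : Function.Periodic.qParam 1 z = nm z ^ 2 := by
  unfold Function.Periodic.qParam nm
  rw [← Complex.exp_nat_mul]
  congr 1
  push_cast
  ring

lemma bb_diff {z : ℂ} (hz : 0 < z.im) : DifferentiableAt ℂ bb z :=
  (differentiableAt_jacobiTheta hz).pow 4

lemma cc_diff {z : ℂ} (hz : 0 < z.im) : DifferentiableAt ℂ cc z := by
  have hz1 : 0 < (z + 1).im := by simpa using hz
  have h1 : DifferentiableAt ℂ (fun z => jacobiTheta (z + 1)) z :=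
    (differentiableAt_jacobiTheta hz1).comp z ((differentiableAt_id).add_const 1)
  exact h1.pow 4

lemma GG_diff {z : ℂ} (hz : 0 < z.im) : DifferentiableAt ℂ GG z := by
  unfold GG
  exact (((bb_diff hz).pow 2).sub ((bb_diff hz).mul (cc_diff hz))).add ((cc_diff hz).pow 2)

lemma HH_diff {z : ℂ} (hz : 0 < z.im) : DifferentiableAt ℂ HH z := by
  unfold HH
  exact ((((bb_diff hz).const_mul 2).sub (cc_diff hz)).mul ((bb_diff hz).add (cc_diff hz))).mul
    (((cc_diff hz).const_mul 2).sub (bb_diff hz)) |>.div_const 2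

lemma Ev_w {z : ℂ} (hz : 0 < z.im) : Ev (w ^ 2) (nm z) (bb z) := by
  have := (Ev_phi hz).pow 4
  rw [show w ^ 2 = phi ^ 4 by unfold w; ring]
  exact this

lemma Ev_w_ {z : ℂ} (hz : 0 < z.im) : Ev (ng w ^ 2) (nm z) (cc z) := by
  have := (Ev_ng_phi hz).pow 4
  rw [show ng w ^ 2 = ng phi ^ 4 by unfold w; rw [map_pow]; ring]
  exact this

lemma dbl_w : w + ng w = 2 * dbl w := H809.OD.ag1
lemma dbl_w_ : dbl (ng w) ^ 2 = w * ng w := by
  rw [← H809.OD.ag2, mul_pow, ← map_pow, ← w]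

lemma dbl_g4 : dbl g4 = w ^ 4 - w ^ 2 * ng w ^ 2 + ng w ^ 4 := by
  have e1 : dbl g4 = (2 * dbl w) ^ 4 - 4 * (2 * dbl w) ^ 2 * (dbl (ng w)) ^ 2 + (dbl (ng w) ^ 2) ^ 2 := by
    unfold g4
    simp only [map_add, map_sub, map_mul, map_pow, map_ofNat]
    ring
  rw [e1, ← dbl_w, dbl_w_]
  ring

lemma dbl_g6 : 2 * dbl g6 = (2 * w ^ 2 - ng w ^ 2) * (w ^ 2 + ng w ^ 2) * (2 * ng w ^ 2 - w ^ 2) := by
  have e1 : 2 * dbl g6 = ((2 * dbl w) ^ 2 - 2 * dbl (ng w) ^ 2) *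
    ((dbl (ng w) ^ 2) ^ 2 + 8 * (2 * dbl w) ^ 2 * dbl (ng w) ^ 2 - 2 * (2 * dbl w) ^ 4) := by
    unfold g6
    simp only [map_add, map_sub, map_mul, map_pow, map_ofNat]
    ring
  rw [e1, ← dbl_w, dbl_w_]
  ring

lemma Ev_g4 {z : ℂ} (hz : 0 < z.im) : Ev g4 (nm z ^ 2) (GG z) := by
  rw [← Ev_dbl_iff, dbl_g4]
  have h1 := Ev_w hz
  have h2 := Ev_w_ hz
  have h := ((h1.pow 2).sub (h1.mul h2)).add (h2.pow 2)
  rw [← pow_mul, ← pow_mul] at h
  exact h

lemma Ev_g6 {z : ℂ} (hz : 0 < z.im) : Ev g6 (nm z ^ 2) (HH z) := by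
  rw [← Ev_dbl_iff]
  have h1 := Ev_w hz
  have h2 := Ev_w_ hz
  have h := ((((Ev.nat 2 (nm z)).mul h1).sub h2).mul (h1.add h2)).mul
    (((Ev.nat 2 (nm z)).mul h2).sub h1)
  have e : (((2 : ℕ) : ℚ⟦X⟧) * w ^ 2 - ng w ^ 2) * (w ^ 2 + ng w ^ 2) *
      (((2 : ℕ) : ℚ⟦X⟧) * ng w ^ 2 - w ^ 2) = 2 * dbl g6 := by
    rw [dbl_g6]; norm_num
  rw [e] at h
  have h3 : Ev (C (1 / 2 : ℚ) * (2 * dbl g6)) (nm z) ((1 / 2 : ℂ) * (((2 : ℕ) * bb z - cc z) *
      (bb z + cc z) * ((2 : ℕ) * cc z - bb z))) := by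
    unfold Ev at h ⊢
    refine hs_congr (h.mul_left (1 / 2 : ℂ)) (fun n => ?_) rfl
    rw [coeff_C_mul]
    push_cast
    ring
  have e2 : C (1 / 2 : ℚ) * (2 * dbl g6) = dbl g6 := by
    rw [← mul_assoc, show (2 : ℚ⟦X⟧) = C (2 : ℚ) from (map_ofNat C 2).symm, ← map_mul]
    norm_num
  rw [e2] at h3
  have e3 : HH z = (1 / 2 : ℂ) * (((2 : ℕ) * bb z - cc z) *
      (bb z + cc z) * ((2 : ℕ) * cc z - bb z)) := by
    unfold HH; push_cast; ring
  rw [e3]
  exact h3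

theorem eis : S_Eis := by
  have h4 : ∀ z : ℍ, HasSum (fun n => ((coeff n g4 : ℚ) : ℂ) • Function.Periodic.qParam 1 z ^ n)
      (GG z) := by
    intro z
    rw [qp_eq]
    exact hs_congr (Ev_g4 z.im_pos) (fun n => rfl) rfl
  have h6 : ∀ z : ℍ, HasSum (fun n => ((coeff n g6 : ℚ) : ℂ) • Function.Periodic.qParam 1 z ^ n)
      (HH z) := by
    intro z
    rw [qp_eq]
    exact hs_congr (Ev_g6 z.im_pos) (fun n => rfl) rfl
  refine ⟨⟨mkForm GG 4 _ GG_T (fun z hz => GG_S hz) (fun z hz => GG_diff hz) h4, ?_⟩,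
    ⟨mkForm HH 6 _ HH_T (fun z hz => HH_S hz) (fun z hz => HH_diff hz) h6, ?_⟩⟩
  · rw [mkForm_qExpansion GG 4 _ GG_T (fun z hz => GG_S hz) (fun z hz => GG_diff hz) h4]
    ext n
    rw [coeff_mk, coeff_map]
    rfl
  · rw [mkForm_qExpansion HH 6 _ HH_T (fun z hz => HH_S hz) (fun z hz => HH_diff hz) h6]
    ext n
    rw [coeff_mk, coeff_map]
    rfl

end Run7.h635.OD.Eis
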