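import Pool.Agent.Run7.h809.OD.Stm2

/-! Statement PIG: Siegel's lemma at the prime `2`. -/

set_option autoImplicit false

open PowerSeries

namespace Run7.h635.OD

open H809.OD

lemma int_le_ser2 : IntSer ≤ Ser2 := by
  rintro _ ⟨f, rfl⟩
  refine ⟨PowerSeries.map (Int.castRingHom Z2) f, ?_⟩
  rw [← RingHom.comp_apply, ← PowerSeries.map_comp]
  congr 2

lemma aeval_mem (S : Subring ℚ⟦X⟧) {x : ℚ⟦X⟧} (hx : x ∈ S) (p : Polynomial ℤ) :
    Polynomial.aeval x p ∈ S := by
  rw [Polynomial.aeval_eq_sum_range]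
  refine sum_mem fun i _ => ?_
  exact zsmul_mem (pow_mem hx i) _

/-- pigeonhole for integer linear forms modulo `m`. -/
lemma siegel {I L : Type} [Fintype I] [Fintype L] [DecidableEq I] [DecidableEq L] (m h : ℕ)
    (hm : 0 < m) (coef : L → I → ℤ) (hcard : m ^ Fintype.card L < (2 ^ h) ^ Fintype.card I) :
    ∃ c : I → ℤ, (∀ i, |c i| < 2 ^ h) ∧ c ≠ 0 ∧ ∀ l, (m : ℤ) ∣ ∑ i, c i * coef l i := by
  have : NeZero m := ⟨hm.ne'⟩
  let Φ : (I → Fin (2 ^ h)) → (L → ZMod m) :=
    fun x l => ((∑ i, ((x i : ℕ) : ℤ) * coef l i : ℤ) : ZMod m)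
  have h1 : Fintype.card (L → ZMod m) < Fintype.card (I → Fin (2 ^ h)) := by
    rw [Fintype.card_fun, Fintype.card_fun, ZMod.card, Fintype.card_fin]
    exact hcard
  obtain ⟨x, y, hxy, hΦ⟩ := Fintype.exists_ne_map_eq_of_card_lt Φ h1
  refine ⟨fun i => ((x i : ℕ) : ℤ) - ((y i : ℕ) : ℤ), fun i => ?_, ?_, fun l => ?_⟩
  · have hx := (x i).2
    have hy := (y i).2
    have e1 : ((x i : ℕ) : ℤ) < (2 : ℤ) ^ h := by
      have := Int.ofNat_lt.2 hx
      push_cast at this
      exact this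
    have e2 : ((y i : ℕ) : ℤ) < (2 : ℤ) ^ h := by
      have := Int.ofNat_lt.2 hy
      push_cast at this
      exact this
    have e3 : (0 : ℤ) ≤ ((x i : ℕ) : ℤ) := Int.natCast_nonneg _
    have e4 : (0 : ℤ) ≤ ((y i : ℕ) : ℤ) := Int.natCast_nonneg _
    show |((x i : ℕ) : ℤ) - ((y i : ℕ) : ℤ)| < (2 : ℤ) ^ h
    rw [abs_lt]
    constructor <;> linarith
  · intro h0
    apply hxy
    funext i
    have := congrFun h0 i
    simp only [Pi.zero_apply] at this
    apply Fin.ext
    omega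
  · have h2 := congrFun hΦ l
    simp only [Φ] at h2
    rw [ZMod.intCast_eq_intCast_iff_dvd_sub, dvd_sub_comm, ← Finset.sum_sub_distrib] at h2
    have e : ∑ i, (((x i : ℕ) : ℤ) - ((y i : ℕ) : ℤ)) * coef l i =
        ∑ i, (((x i : ℕ) : ℤ) * coef l i - ((y i : ℕ) : ℤ) * coef l i) :=
      Finset.sum_congr rfl fun i _ => by ring
    rw [e]
    exact h2

/-- `(A + 2^M g)^k = A^k + 2^M g'`. -/
lemma pow_add_two (M k : ℕ) {A g : ℚ⟦X⟧} (hA : A ∈ Ser2) (hg : g ∈ Ser2) :
    ∃ g' ∈ Ser2, (A + 2 ^ M * g) ^ k = A ^ k + 2 ^ M * g' := by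
  induction k with
  | zero => exact ⟨0, zero_mem _, by simp⟩
  | succ k ih =>
    obtain ⟨g', hg', h⟩ := ih
    refine ⟨g' * A + (A ^ k + 2 ^ M * g') * g, ?_, ?_⟩
    · refine add_mem (mul_mem hg' hA) (mul_mem (add_mem (pow_mem hA k) (mul_mem (pow_mem ?_ _) hg')) hg)
      exact ofNat_mem Ser2 2
    · rw [pow_succ, h]
      ring

/-- degree of `X^b * C q * AA^k`. -/
lemma deg_BB (N K k b : ℕ) (hk : k ≤ K) (hb : b ≤ N * K) (q : Polynomial ℤ)
    (A : ℕ → Polynomial ℤ) :
    (Polynomial.X ^ b * Polynomial.C q *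
      (∑ i ∈ Finset.range (N + 1), Polynomial.C (A i) * Polynomial.X ^ i) ^ k :
        Polynomial (Polynomial ℤ)).natDegree < 2 * N * K + 1 := by
  have h1 : (∑ i ∈ Finset.range (N + 1), Polynomial.C (A i) * Polynomial.X ^ i :
      Polynomial (Polynomial ℤ)).natDegree ≤ N := by
    refine Polynomial.natDegree_sum_le_of_forall_le _ _ fun i hi => ?_
    refine (Polynomial.natDegree_C_mul_X_pow_le _ _).trans ?_
    rw [Finset.mem_range] at hi
    omega
  have h2 := (Polynomial.natDegree_pow_le (p := (∑ i ∈ Finset.range (N + 1),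
    Polynomial.C (A i) * Polynomial.X ^ i : Polynomial (Polynomial ℤ))) (n := k))
  have h3 := Polynomial.natDegree_mul_le (p := (Polynomial.X ^ b * Polynomial.C q :
    Polynomial (Polynomial ℤ))) (q := (∑ i ∈ Finset.range (N + 1),
    Polynomial.C (A i) * Polynomial.X ^ i : Polynomial (Polynomial ℤ)) ^ k)
  have h4 : (Polynomial.X ^ b * Polynomial.C q : Polynomial (Polynomial ℤ)).natDegree ≤ b := by
    refine (Polynomial.natDegree_mul_C_le _ _).trans ?_
    rw [Polynomial.natDegree_X_pow]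
  have h5 : k * (∑ i ∈ Finset.range (N + 1), Polynomial.C (A i) * Polynomial.X ^ i :
      Polynomial (Polynomial ℤ)).natDegree ≤ K * N := Nat.mul_le_mul hk h1
  have h6 : 2 * N * K = N * K + K * N := by ring
  omega

theorem pig (ht : Theta) (hn : S_Near) : S_Pig := by
  classical
  intro N R F hF hng K D M h hlt
  obtain ⟨Q, A, g, hQ, hg, hid⟩ := hn N R F hF hng M
  -- facts on `Ser2`
  have hu : u ∈ Ser2 := int_le_ser2 ht.u_int
  have hz : zt ∈ Ser2 := int_le_ser2 ht.zt_int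
  have hwi : wi ∈ Ser2 := int_le_ser2 ht.wi_int
  have h2 : (2 : ℚ⟦X⟧) ∈ Ser2 := ofNat_mem Ser2 2
  have h2u : 2 * u ∈ Ser2 := mul_mem h2 hu
  have hww : w * wi = 1 := by
    unfold wi
    refine PowerSeries.mul_inv_cancel _ ?_
    have := ht.w_zero
    rw [PowerSeries.coeff_zero_eq_constantCoeff_apply] at this
    rw [this]
    exact one_ne_zero
  have hwwN : w ^ N * wi ^ N = 1 := by rw [← mul_pow, hww, one_pow]
  set d := R.natDegree with hd
  set Y : ℚ⟦X⟧ := 2 ^ (d + 1) * F * wi ^ N with hY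
  set φ : Polynomial ℤ →+* ℚ⟦X⟧ := (Polynomial.aeval (2 * u) : Polynomial ℤ →ₐ[ℤ] ℚ⟦X⟧).toRingHom
    with hφ
  have hφa : ∀ p, φ p = Polynomial.aeval (2 * u) p := fun p => rfl
  have hφm : ∀ p, φ p ∈ Ser2 := fun p => by rw [hφa]; exact aeval_mem _ h2u p
  set AA : Polynomial (Polynomial ℤ) :=
    ∑ i ∈ Finset.range (N + 1), Polynomial.C (A i) * Polynomial.X ^ i with hAA
  set E : Polynomial (Polynomial ℤ) →+* ℚ⟦X⟧ := Polynomial.eval₂RingHom φ zt with hE
  have hEAA : E AA = ∑ i ∈ Finset.range (N + 1), Polynomial.aeval (2 * u) (A i) * zt ^ i := by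
    rw [hAA, map_sum]
    refine Finset.sum_congr rfl fun i _ => ?_
    rw [map_mul, map_pow]
    simp [hE, hφa]
  have hEm : ∀ p, E p ∈ Ser2 := by
    intro p
    have : E p = ∑ i ∈ Finset.range (p.natDegree + 1), φ (p.coeff i) * zt ^ i := by
      simp only [hE, Polynomial.coe_eval₂RingHom]
      exact Polynomial.eval₂_eq_sum_range _ _
    rw [this]
    exact sum_mem fun i _ => mul_mem (hφm _) (pow_mem hz i)
  have hkey : φ Q * Y = E AA + 2 ^ M * (g * wi ^ N) := by
    have e1 : φ Q * Y = (Polynomial.aeval (2 * u) Q * (2 ^ (d + 1) * F)) * wi ^ N := by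
      rw [hφa, hY]; ring
    rw [e1, hid, hEAA]
    linear_combination (∑ i ∈ Finset.range (N + 1), Polynomial.aeval (2 * u) (A i) * zt ^ i) * hwwN
  have hg' : g * wi ^ N ∈ Ser2 := mul_mem hg (pow_mem hwi N)
  -- the bivariate polynomials
  let BB : ℕ → ℕ → Polynomial (Polynomial ℤ) := fun k b =>
    Polynomial.X ^ b * Polynomial.C (Q ^ (K - k)) * AA ^ k
  have hrow : ∀ j k b, k ≤ K → ∃ gg ∈ Ser2,
      φ Q ^ K * row N d F j k b = u ^ j * E (BB k b) + 2 ^ M * gg := by
    intro j k b hk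
    obtain ⟨g1, hg1, e1⟩ := pow_add_two M k (hEm AA) hg'
    refine ⟨u ^ j * zt ^ b * φ Q ^ (K - k) * g1, ?_, ?_⟩
    · exact mul_mem (mul_mem (mul_mem (pow_mem hu j) (pow_mem hz b)) (pow_mem (hφm Q) _)) hg1
    · have e2 : φ Q ^ K = φ Q ^ (K - k) * φ Q ^ k := by
        rw [← pow_add]; congr 1; omega
      have e3 : E (BB k b) = zt ^ b * φ Q ^ (K - k) * E AA ^ k := by
        simp only [BB, map_mul, map_pow]
        simp [hE]
      have e4 : row N d F j k b = u ^ j * zt ^ b * Y ^ k := rfl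
      rw [e4, e2, e3]
      have e5 : (φ Q * Y) ^ k = E AA ^ k + 2 ^ M * g1 := by rw [hkey]; exact e1
      have e6 : φ Q ^ (K - k) * φ Q ^ k * (u ^ j * zt ^ b * Y ^ k) =
          u ^ j * zt ^ b * φ Q ^ (K - k) * (φ Q * Y) ^ k := by rw [mul_pow]; ring
      rw [e6, e5]
      ring
  have hEB : ∀ k b, k ≤ K → b ≤ N * K → E (BB k b) =
      ∑ i ∈ Finset.range (2 * N * K + 1), φ ((BB k b).coeff i) * zt ^ i := by
    intro k b hk hb
    simp only [hE, Polynomial.coe_eval₂RingHom]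
    exact Polynomial.eval₂_eq_sum_range' _ (deg_BB N K k b hk hb _ A) _
  -- the linear system
  let pol : Fin D × Fin (K + 1) × Fin (N * K + 1) → ℕ → Polynomial ℤ := fun x i =>
    Polynomial.X ^ (x.1 : ℕ) * ((BB x.2.1 x.2.2).coeff i).comp (Polynomial.C 2 * Polynomial.X)
  have hcard : (2 ^ M) ^ Fintype.card (Fin (D + M) × Fin (2 * N * K + 1)) <
      (2 ^ h) ^ Fintype.card (Fin D × Fin (K + 1) × Fin (N * K + 1)) := by
    simp only [Fintype.card_prod, Fintype.card_fin]
    rw [← pow_mul, ← pow_mul]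
    refine Nat.pow_lt_pow_right (by norm_num) ?_
    calc M * ((D + M) * (2 * N * K + 1)) = M * (2 * N * K + 1) * (D + M) := by ring
      _ < _ := hlt
  obtain ⟨c, hc1, hc2, hc3⟩ := siegel (2 ^ M) h (by positivity)
    (fun (l : Fin (D + M) × Fin (2 * N * K + 1)) x => (pol x l.2).coeff l.1) hcard
  -- divisibility
  let P : ℕ → Polynomial ℤ := fun i => ∑ x, Polynomial.C (c x) * pol x i
  have hP : ∀ i < 2 * N * K + 1, ∃ P' : Polynomial ℤ, P i = Polynomial.C (2 ^ M) * P' := by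
    intro i hi
    have : Polynomial.C ((2 : ℤ) ^ M) ∣ P i := by
      rw [Polynomial.C_dvd_iff_dvd_coeff]
      intro l
      have e1 : (P i).coeff l = ∑ x, c x * (pol x i).coeff l := by
        simp only [P]
        rw [Polynomial.finsetSum_coeff]
        exact Finset.sum_congr rfl fun x _ => Polynomial.coeff_C_mul _
      rw [e1]
      by_cases hl : l < D + M
      · have := hc3 (⟨l, hl⟩, ⟨i, hi⟩)
        push_cast at this
        exact this
      · refine Finset.dvd_sum fun x _ => Dvd.dvd.mul_left ?_ _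
        simp only [pol]
        rw [Polynomial.coeff_X_pow_mul']
        split_ifs with h0
        · rw [Polynomial.comp_C_mul_X_coeff]
          refine Dvd.dvd.mul_left (pow_dvd_pow 2 ?_) _
          have := x.1.2
          omega
        · exact dvd_zero _
    obtain ⟨P', hP'⟩ := this
    exact ⟨P', hP'⟩
  choose! P' hP' using hP
  have hpol : ∀ x i, Polynomial.aeval u (pol x i) = u ^ (x.1 : ℕ) * φ ((BB x.2.1 x.2.2).coeff i) := by
    intro x i
    simp only [pol]
    have e0 : Polynomial.aeval u (Polynomial.C 2 * Polynomial.X : Polynomial ℤ) = 2 * u := by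
      rw [map_mul, Polynomial.aeval_C, Polynomial.aeval_X]
      simp
    rw [map_mul, map_pow, Polynomial.aeval_X, Polynomial.aeval_comp, e0, hφa]
  -- the coefficients
  refine ⟨fun j k b => if hx : j < D ∧ k < K + 1 ∧ b < N * K + 1 then
    c (⟨j, hx.1⟩, ⟨k, hx.2.1⟩, ⟨b, hx.2.2⟩) else 0, fun j k b => ?_, ?_, ?_⟩
  · dsimp only
    split_ifs with hx
    · exact hc1 _
    · simp
  · obtain ⟨x, hx⟩ := Function.ne_iff.1 hc2
    refine ⟨x.1, x.1.2, x.2.1, Nat.lt_succ_iff.1 x.2.1.2, x.2.2, Nat.lt_succ_iff.1 x.2.2.2, ?_⟩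
    dsimp only
    rw [dif_pos ⟨x.1.2, x.2.1.2, x.2.2.2⟩]
    exact hx
  · choose gg hgg hgg' using fun x : Fin D × Fin (K + 1) × Fin (N * K + 1) =>
      hrow x.1 x.2.1 x.2.2 (Nat.lt_succ_iff.1 x.2.1.2)
    refine ⟨Q.coeff 0 ^ K, φ Q ^ K, (∑ i ∈ Finset.range (2 * N * K + 1),
      Polynomial.aeval u (P' i) * zt ^ i) + ∑ x, (c x : ℚ⟦X⟧) * gg x, hQ.pow, ?_, ?_, ?_⟩
    · rw [PowerSeries.coeff_zero_eq_constantCoeff_apply, map_pow, hφa]
      have e1 : PowerSeries.constantCoeff (Polynomial.aeval (2 * u) Q) = (Q.coeff 0 : ℚ) := by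
        have e3 : PowerSeries.constantCoeff (2 * u) = 0 := by
          have h0 := ht.u_zero
          rw [PowerSeries.coeff_zero_eq_constantCoeff_apply] at h0
          rw [map_mul, h0, mul_zero]
        rw [Polynomial.aeval_def, Polynomial.hom_eval₂, e3, Polynomial.eval₂_eq_sum_range,
          Finset.sum_eq_single 0]
        · simp
        · intro b _ hb
          rw [zero_pow hb, mul_zero]
        · intro hb
          simp at hb
      rw [e1]
      push_cast
      rfl
    · refine add_mem (sum_mem fun i _ => mul_mem (aeval_mem _ hu _) (pow_mem hz i))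
        (sum_mem fun x _ => mul_mem (intCast_mem Ser2 _) (hgg x))
    · have e1 : ∑ j ∈ Finset.range D, ∑ k ∈ Finset.range (K + 1), ∑ b ∈ Finset.range (N * K + 1),
          (((if hx : j < D ∧ k < K + 1 ∧ b < N * K + 1 then
            c (⟨j, hx.1⟩, ⟨k, hx.2.1⟩, ⟨b, hx.2.2⟩) else 0 : ℤ)) : ℚ⟦X⟧) * row N d F j k b =
          ∑ x : Fin D × Fin (K + 1) × Fin (N * K + 1),
            (c x : ℚ⟦X⟧) * row N d F x.1 x.2.1 x.2.2 := by
        rw [Fintype.sum_prod_type, Finset.sum_range]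
        refine Finset.sum_congr rfl fun j _ => ?_
        rw [Fintype.sum_prod_type, Finset.sum_range]
        refine Finset.sum_congr rfl fun k _ => ?_
        rw [Finset.sum_range]
        refine Finset.sum_congr rfl fun b _ => ?_
        rw [dif_pos ⟨j.2, k.2, b.2⟩]
      dsimp only
      rw [e1, Finset.mul_sum]
      have e2 : ∀ x : Fin D × Fin (K + 1) × Fin (N * K + 1),
          φ Q ^ K * ((c x : ℚ⟦X⟧) * row N d F x.1 x.2.1 x.2.2) =
          (∑ i ∈ Finset.range (2 * N * K + 1), (c x : ℚ⟦X⟧) * Polynomial.aeval u (pol x i) * zt ^ i)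
            + 2 ^ M * ((c x : ℚ⟦X⟧) * gg x) := by
        intro x
        have e3 := hgg' x
        rw [hEB _ _ (Nat.lt_succ_iff.1 x.2.1.2) (Nat.lt_succ_iff.1 x.2.2.2)] at e3
        calc φ Q ^ K * ((c x : ℚ⟦X⟧) * row N d F x.1 x.2.1 x.2.2)
            = (c x : ℚ⟦X⟧) * (φ Q ^ K * row N d F x.1 x.2.1 x.2.2) := by ring
          _ = _ := by
            rw [e3, mul_add, Finset.mul_sum, Finset.mul_sum]
            congr 1
            · refine Finset.sum_congr rfl fun i _ => ?_
              rw [hpol]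
              ring
            · ring
      rw [Finset.sum_congr rfl fun x _ => e2 x, Finset.sum_add_distrib, Finset.sum_comm,
        ← Finset.mul_sum, mul_add]
      congr 1
      rw [Finset.mul_sum]
      refine Finset.sum_congr rfl fun i hi => ?_
      rw [← Finset.sum_mul]
      have e4 : ∑ x, (c x : ℚ⟦X⟧) * Polynomial.aeval u (pol x i) = Polynomial.aeval u (P i) := by
        simp only [P]
        rw [map_sum]
        refine Finset.sum_congr rfl fun x _ => ?_
        rw [map_mul (Polynomial.aeval u) (Polynomial.C (c x)) (pol x i), Polynomial.aeval_C]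
        simp
      rw [e4, hP' i (Finset.mem_range.1 hi), map_mul, Polynomial.aeval_C]
      simp only [eq_intCast, Int.cast_pow, Int.cast_ofNat]
      ring

end Run7.h635.OD
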