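import Mathlib

/-! Traces of Hecke eigenvalues. -/

set_option autoImplicit false

namespace Run7.h635.OD

/-- Hecke relations in weight `k` with a quadratic (or trivial) character `ε` (`ε p = 0` at the
primes dividing the level). -/
def HeckeRel (ε : ℕ → ℤ) (k : ℕ) (a : ℕ → ℂ) : Prop :=
  a 0 = 0 ∧ a 1 = 1 ∧ ∀ p : ℕ, p.Prime → ∀ n : ℕ,
    a (p * n) = a p * a n - if p ∣ n then (ε p : ℂ) * (p : ℂ) ^ (k - 1) * a (n / p) else 0

section
variable {ε : ℕ → ℤ} {k : ℕ} {a : ℕ → ℂ}

/-- closure under multiplication, over any subring of `ℂ`. -/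
lemma mul_mem_span {A : Type} [CommRing A] [Algebra A ℂ] (h : HeckeRel ε k a) (n : ℕ) :
    ∀ x ∈ Submodule.span A (Set.range a), a n * x ∈ Submodule.span A (Set.range a) := by
  have hpr : ∀ p : ℕ, p.Prime → ∀ x ∈ Submodule.span A (Set.range a),
      a p * x ∈ Submodule.span A (Set.range a) := by
    intro p hp x hx
    induction hx using Submodule.span_induction with
    | mem x hx =>
      obtain ⟨j, rfl⟩ := hx
      have e := h.2.2 p hp j
      have e2 : a p * a j = a (p * j) +
          if p ∣ j then (ε p : ℂ) * (p : ℂ) ^ (k - 1) * a (j / p) else 0 := by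
        rw [e]; ring
      rw [e2]
      refine add_mem (Submodule.subset_span ⟨_, rfl⟩) ?_
      split_ifs
      · have e3 : (ε p : ℂ) * (p : ℂ) ^ (k - 1) * a (j / p) = (ε p * p ^ (k - 1) : ℤ) • a (j / p) := by
          rw [zsmul_eq_mul]; push_cast; ring
        rw [e3]
        exact zsmul_mem (Submodule.subset_span (Set.mem_range_self _)) _
      · exact zero_mem _
    | zero => rw [mul_zero]; exact zero_mem _
    | add x y _ _ hx hy => rw [mul_add]; exact add_mem hx hy
    | smul c x _ hx => rw [mul_smul_comm]; exact Submodule.smul_mem _ _ hx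
  induction n using Nat.strong_induction_on with
  | _ n ih =>
    intro x hx
    rcases Nat.lt_or_ge 1 n with hn | hn
    · obtain ⟨p, hp, m, rfl⟩ := Nat.exists_prime_and_dvd (n := n) (by omega)
      have hm : 0 < m := Nat.pos_of_ne_zero (by rintro rfl; simp at hn)
      have hmlt : m < p * m := by nlinarith [hp.two_le]
      rw [h.2.2 p hp m, sub_mul, mul_assoc]
      refine sub_mem (hpr p hp _ (ih m hmlt x hx)) ?_
      split_ifs
      · have e3 : (ε p : ℂ) * (p : ℂ) ^ (k - 1) * a (m / p) * x =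
            (ε p * p ^ (k - 1) : ℤ) • (a (m / p) * x) := by
          rw [zsmul_eq_mul]; push_cast; ring
        rw [e3]
        exact zsmul_mem (ih _ (lt_of_le_of_lt (Nat.div_le_self _ _) hmlt) x hx) _
      · rw [zero_mul]; exact zero_mem _
    · interval_cases n
      · rw [h.1, zero_mul]; exact zero_mem _
      · rw [h.2.1, one_mul]; exact hx

lemma adjoin_le_span {A : Type} [CommRing A] [Algebra A ℂ] (h : HeckeRel ε k a) :
    Subalgebra.toSubmodule (Algebra.adjoin A (Set.range a)) ≤ Submodule.span A (Set.range a) := by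
  have hmul : ∀ x ∈ Submodule.span A (Set.range a), ∀ y ∈ Submodule.span A (Set.range a),
      x * y ∈ Submodule.span A (Set.range a) := by
    intro x hx y hy
    induction hx using Submodule.span_induction with
    | mem x hx =>
      obtain ⟨j, rfl⟩ := hx
      exact mul_mem_span h j y hy
    | zero => rw [zero_mul]; exact zero_mem _
    | add x z _ _ hx hz => rw [add_mul]; exact add_mem hx hz
    | smul c x _ hx => rw [smul_mul_assoc]; exact Submodule.smul_mem _ _ hx
  intro x hx
  rw [Subalgebra.mem_toSubmodule] at hx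
  induction hx using Algebra.adjoin_induction with
  | mem x hx => exact Submodule.subset_span hx
  | algebraMap r =>
    rw [Algebra.algebraMap_eq_smul_one, ← h.2.1]
    exact Submodule.smul_mem _ _ (Submodule.subset_span ⟨1, rfl⟩)
  | add x y _ _ hx hy => exact add_mem hx hy
  | mul x y _ _ hx hy => exact hmul x hx y hy

variable {ι : Type} [Fintype ι] (c : ι → ℂ) (v : ι → ℕ → ℤ)

lemma span_le (hc : ∀ n, a n = ∑ i, c i * (v i n : ℂ)) {A : Type} [CommRing A] [Algebra A ℂ] :
    Submodule.span A (Set.range a) ≤ Submodule.span A (Set.range c) := by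
  rw [Submodule.span_le]
  rintro _ ⟨n, rfl⟩
  rw [SetLike.mem_coe, hc]
  refine sum_mem fun i _ => ?_
  have e : c i * (v i n : ℂ) = (v i n : ℤ) • c i := by rw [zsmul_eq_mul]; ring
  rw [e]
  exact zsmul_mem (Submodule.subset_span (Set.mem_range_self i)) _

lemma integral_a (h : HeckeRel ε k a) (hc : ∀ n, a n = ∑ i, c i * (v i n : ℂ)) (n : ℕ) :
    IsIntegral ℤ (a n) := by
  refine IsIntegral.of_mem_of_fg (Algebra.adjoin ℤ (Set.range a)) ?_ _
    (Algebra.subset_adjoin (s := Set.range a) (Set.mem_range_self n))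
  have hN : IsNoetherian ℤ (Submodule.span ℤ (Set.range c)) :=
    isNoetherian_span_of_finite ℤ (Set.finite_range c)
  have hle := (adjoin_le_span (A := ℤ) h).trans (span_le c v hc)
  exact isNoetherian_submodule.1 hN _ hle

/-- the field generated by the coefficients. -/
lemma exists_field (h : HeckeRel ε k a) (hc : ∀ n, a n = ∑ i, c i * (v i n : ℂ)) :
    ∃ K : IntermediateField ℚ ℂ, FiniteDimensional ℚ K ∧ ∀ n, a n ∈ K := by
  set A := Algebra.adjoin ℚ (Set.range a) with hA
  have hN : IsNoetherian ℚ (Submodule.span ℚ (Set.range c)) :=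
    isNoetherian_span_of_finite ℚ (Set.finite_range c)
  have hle := (adjoin_le_span (A := ℚ) h).trans (span_le c v hc)
  have hfg : (Subalgebra.toSubmodule A).FG := isNoetherian_submodule.1 hN _ hle
  have hfd : Module.Finite ℚ A := ⟨(Submodule.fg_top _).2 hfg⟩
  have halg : Algebra.IsAlgebraic ℚ A := Algebra.IsAlgebraic.of_finite ℚ A
  have hF : IsField A := isField_of_isIntegral_of_isField' (Field.toIsField ℚ)
  refine ⟨A.toIntermediateField' hF, ?_, fun n => ?_⟩
  · exact hfd
  · exact Algebra.subset_adjoin (Set.mem_range_self n)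

lemma integral_div (h : HeckeRel ε k a) (hk : 3 ≤ k) (hint : ∀ n, IsIntegral ℤ (a n)) {p : ℕ}
    (hp : p.Prime) (hpi : IsIntegral ℤ (a p / p)) (n : ℕ) :
    IsIntegral ℤ (a n / (p : ℂ) ^ (n.factorization p)) := by
  rcases Nat.eq_zero_or_pos n with rfl | hn
  · rw [h.1, zero_div]; exact isIntegral_zero
  have hp0 : (p : ℂ) ≠ 0 := by exact_mod_cast hp.ne_zero
  have key : ∀ m : ℕ, ¬ p ∣ m → ∀ r : ℕ, IsIntegral ℤ (a (p ^ r * m) / (p : ℂ) ^ r) ∧
      IsIntegral ℤ (a (p ^ (r + 1) * m) / (p : ℂ) ^ (r + 1)) := by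
    intro m hm r
    induction r with
    | zero =>
      refine ⟨by simpa using hint m, ?_⟩
      have e := h.2.2 p hp m
      rw [if_neg hm, sub_zero] at e
      have e2 : a (p ^ (0 + 1) * m) / (p : ℂ) ^ (0 + 1) = (a p / p) * a m := by
        simp only [zero_add, pow_one]
        rw [e]; ring
      rw [e2]
      exact hpi.mul (hint m)
    | succ r ih =>
      refine ⟨ih.2, ?_⟩
      have e := h.2.2 p hp (p ^ (r + 1) * m)
      have hd : p ∣ p ^ (r + 1) * m := Dvd.dvd.mul_right (dvd_pow_self p (by omega)) m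
      have hq : p ^ (r + 1) * m / p = p ^ r * m := by
        rw [pow_succ', mul_assoc, Nat.mul_div_cancel_left _ hp.pos]
      rw [if_pos hd, hq] at e
      have e0 : p * (p ^ (r + 1) * m) = p ^ (r + 1 + 1) * m := by ring
      rw [e0] at e
      have hpw : (p : ℂ) ^ (k - 1) = (p : ℂ) ^ (k - 3) * (p : ℂ) ^ 2 := by
        rw [← pow_add]; congr 1; omega
      have e2 : a (p ^ (r + 1 + 1) * m) / (p : ℂ) ^ (r + 1 + 1) =
          (a p / p) * (a (p ^ (r + 1) * m) / (p : ℂ) ^ (r + 1)) -
            (ε p : ℂ) * ((p : ℂ) ^ (k - 3) * (a (p ^ r * m) / (p : ℂ) ^ r)) := by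
        rw [e, hpw]
        field_simp
        ring
      rw [e2]
      refine (hpi.mul ih.2).sub (IsIntegral.mul ?_ (IsIntegral.mul ?_ ih.1))
      · exact isIntegral_algebraMap (R := ℤ) (A := ℂ) (x := ε p)
      · have : IsIntegral ℤ ((p : ℤ) : ℂ) := isIntegral_algebraMap
        exact (by simpa using this.pow (k - 3))
  obtain ⟨r, m, hm, rfl⟩ := Nat.exists_eq_pow_mul_and_not_dvd hn.ne' p hp.ne_one
  have e : (p ^ r * m).factorization p = r := by
    rw [Nat.factorization_mul (pow_ne_zero _ hp.ne_zero) (by rintro rfl; simp at hm),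
      Finsupp.add_apply, hp.factorization_pow, Finsupp.single_eq_same,
      Nat.factorization_eq_zero_of_not_dvd hm, add_zero]
  rw [e]
  exact (key m hm r).1

/-- **Trace lemma.** -/
theorem exists_trace (h : HeckeRel ε k a) (hk : 3 ≤ k)
    (hc : ∀ n, a n = ∑ i, c i * (v i n : ℂ)) :
    ∃ (π : ℂ →ₗ[ℚ] ℚ) (b : ℕ → ℤ), (∀ n, (b n : ℚ) = π (a n)) ∧ b 1 ≠ 0 ∧
      ∀ p : ℕ, p.Prime → IsIntegral ℤ (a p / p) → ∀ n, (p : ℤ) ^ (n.factorization p) ∣ b n := by
  obtain ⟨K, hK, haK⟩ := exists_field c v h hc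
  have hint := integral_a c v h hc
  obtain ⟨π, hπ⟩ := LinearMap.exists_extend
    (p := Subalgebra.toSubmodule K.toSubalgebra) (Algebra.trace ℚ K)
  have hπ' : ∀ x : K, π (x : ℂ) = Algebra.trace ℚ K x := fun x => by
    have := LinearMap.congr_fun hπ x
    exact this
  -- integrality of traces
  have htr : ∀ x : K, IsIntegral ℤ (x : ℂ) → ∃ z : ℤ, (z : ℚ) = Algebra.trace ℚ K x := by
    intro x hx
    have h1 : IsIntegral ℤ x := by
      have : IsIntegral ℤ (algebraMap K ℂ x) := hx
      exact (isIntegral_algebraMap_iff (algebraMap K ℂ).injective).1 this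
    have h2 : IsIntegral ℤ (Algebra.trace ℚ K x) := Algebra.isIntegral_trace h1
    obtain ⟨z, hz⟩ := IsIntegrallyClosed.isIntegral_iff.1 h2
    exact ⟨z, by simpa using hz⟩
  choose b hb using fun n => htr ⟨a n, haK n⟩ (hint n)
  refine ⟨π, b, fun n => ?_, ?_, ?_⟩
  · rw [hb n, ← hπ']
  · intro h0
    have h1 := hb 1
    have e : (⟨a 1, haK 1⟩ : K) = 1 := Subtype.ext h.2.1
    rw [h0, e] at h1
    have h2 : Algebra.trace ℚ K 1 = (Module.finrank ℚ K : ℚ) := by
      have := Algebra.trace_algebraMap (R := ℚ) (S := K) (1 : ℚ)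
      simpa using this
    rw [h2] at h1
    have h3 : 0 < Module.finrank ℚ K := Module.finrank_pos
    have h4 : (0 : ℚ) < (Module.finrank ℚ K : ℚ) := by exact_mod_cast h3
    rw [← h1] at h4
    simp at h4
  · intro p hp hpi n
    have hp0 : (p : ℂ) ≠ 0 := by exact_mod_cast hp.ne_zero
    have hp0' : (p : ℚ) ≠ 0 := by exact_mod_cast hp.ne_zero
    have h1 := integral_div h hk hint hp hpi n
    have hmem : a n / (p : ℂ) ^ (n.factorization p) ∈ K :=
      div_mem (haK n) (pow_mem (natCast_mem K p) _)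
    obtain ⟨z, hz⟩ := htr ⟨_, hmem⟩ h1
    refine ⟨z, ?_⟩
    have e : (⟨a n, haK n⟩ : K) = ((p : ℚ) ^ (n.factorization p)) •
        (⟨a n / (p : ℂ) ^ (n.factorization p), hmem⟩ : K) := by
      apply Subtype.ext
      rw [IntermediateField.coe_smul]
      rw [Algebra.smul_def]
      simp only [map_pow, map_natCast]
      field_simp
    have h2 := hb n
    rw [e, map_smul, ← hz, smul_eq_mul] at h2
    exact_mod_cast h2

end

end Run7.h635.OD
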