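import Pool.Agent.Run7.h635.OD.Tr

/-! Trace lemma, radical version: places above `p`. -/

set_option autoImplicit false

namespace Run7.h635.OD

/-- no power of `x` is divisible by `p` in the ring of algebraic integers. -/
def UnitAbove (x : ℂ) (p : ℕ) : Prop := ¬ ∃ m : ℕ, IsIntegral ℤ (x ^ m / (p : ℂ))

lemma dvd_of_pow_div {z : ℤ} {p M : ℕ} (hp : p.Prime)
    (h : IsIntegral ℤ (((z : ℂ)) ^ M / (p : ℂ))) : (p : ℤ) ∣ z := by
  have hp0 : (p : ℚ) ≠ 0 := by exact_mod_cast hp.ne_zero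
  have h1 : IsIntegral ℤ ((z : ℚ) ^ M / p) := by
    have e : algebraMap ℚ ℂ ((z : ℚ) ^ M / p) = ((z : ℂ)) ^ M / (p : ℂ) := by
      push_cast; simp
    exact (isIntegral_algebraMap_iff (algebraMap ℚ ℂ).injective).1 (by rw [e]; exact h)
  obtain ⟨w, hw⟩ := IsIntegrallyClosed.isIntegral_iff.1 h1
  have h2 : (z : ℚ) ^ M = p * w := by
    have : (w : ℚ) = (z : ℚ) ^ M / p := by simpa using hw
    rw [this]; field_simp
  have h3 : z ^ M = p * w := by exact_mod_cast h2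
  exact Int.Prime.dvd_pow' hp (Dvd.intro _ h3.symm)

lemma dvd_trace {K : IntermediateField ℚ ℂ} [FiniteDimensional ℚ K] {x : K} {p m : ℕ}
    (hp : p.Prime) (hx : IsIntegral ℤ (x : ℂ)) (hm : IsIntegral ℤ ((x : ℂ) ^ m / (p : ℂ)))
    {z : ℤ} (hz : (z : ℚ) = Algebra.trace ℚ K x) : (p : ℤ) ∣ z := by
  classical
  have hp0 : (p : ℂ) ≠ 0 := by exact_mod_cast hp.ne_zero
  have hp0' : (p : K) ≠ 0 := by exact_mod_cast hp.ne_zero
  have hxK : IsIntegral ℤ x :=
    (isIntegral_algebraMap_iff (algebraMap K ℂ).injective).1 hx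
  have hmK : IsIntegral ℤ (x ^ m / (p : K)) := by
    refine (isIntegral_algebraMap_iff (algebraMap K ℂ).injective).1 ?_
    have e : algebraMap K ℂ (x ^ m / (p : K)) = (x : ℂ) ^ m / (p : ℂ) := by
      rw [map_div₀, map_pow, map_natCast]; rfl
    rw [e]; exact hm
  have hsum := trace_eq_sum_embeddings (K := ℚ) (L := K) (E := ℂ) (x := x)
  have hzC : ((z : ℤ) : ℂ) = ∑ σ : K →ₐ[ℚ] ℂ, σ x := by
    rw [← hsum, ← hz]; simp
  -- in the ring of algebraic integers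
  set B := integralClosure ℤ ℂ
  have hσ : ∀ σ : K →ₐ[ℚ] ℂ, IsIntegral ℤ (σ x) := fun σ => by
    have := hxK.map (σ.restrictScalars ℤ)
    exact this
  let y : (K →ₐ[ℚ] ℂ) → B := fun σ => ⟨σ x, hσ σ⟩
  have hy : ∀ σ, y σ ∈ (Ideal.span {((p : ℕ) : B)}).radical := by
    intro σ
    refine ⟨m, ?_⟩
    rw [Ideal.mem_span_singleton]
    have h1 : IsIntegral ℤ (σ (x ^ m / (p : K))) := hmK.map (σ.restrictScalars ℤ)
    refine ⟨⟨_, h1⟩, ?_⟩
    apply Subtype.ext
    show (σ x) ^ m = (p : ℂ) * σ (x ^ m / (p : K))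
    rw [map_div₀, map_pow, map_natCast]
    field_simp
  have hsumB : ((z : ℤ) : B) = ∑ σ, y σ := by
    apply Subtype.ext
    have e : ((∑ σ, y σ : B) : ℂ) = ∑ σ, ((y σ : B) : ℂ) := by
      rw [AddSubmonoidClass.coe_finsetSum]
    rw [e]
    exact hzC
  have hrad : ((z : ℤ) : B) ∈ (Ideal.span {((p : ℕ) : B)}).radical := by
    rw [hsumB]; exact sum_mem fun σ _ => hy σ
  obtain ⟨M, hM⟩ := hrad
  rw [Ideal.mem_span_singleton] at hM
  obtain ⟨⟨c, hc⟩, hM⟩ := hM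
  have hM' : ((z : ℂ)) ^ M = (p : ℂ) * c := congrArg Subtype.val hM
  refine dvd_of_pow_div (M := M) hp ?_
  rw [hM', mul_div_cancel_left₀ _ hp0]
  exact hc

section
variable {ε : ℕ → ℤ} {k : ℕ} {a : ℕ → ℂ}
variable {ι : Type} [Fintype ι] (c : ι → ℂ) (v : ι → ℕ → ℤ)

/-- **Trace lemma, radical version.** -/
theorem exists_trace2 (h : HeckeRel ε k a) (hc : ∀ n, a n = ∑ i, c i * (v i n : ℂ)) :
    ∃ (π : ℂ →ₗ[ℚ] ℚ) (b : ℕ → ℤ), (∀ n, (b n : ℚ) = π (a n)) ∧ b 1 ≠ 0 ∧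
      ∀ p : ℕ, p.Prime → ¬ UnitAbove (a p) p → ∀ n < p ^ 2, p ∣ n → (p : ℤ) ∣ b n := by
  obtain ⟨K, hK, haK⟩ := exists_field c v h hc
  have hint := integral_a c v h hc
  obtain ⟨π, hπ⟩ := LinearMap.exists_extend
    (p := Subalgebra.toSubmodule K.toSubalgebra) (Algebra.trace ℚ K)
  have hπ' : ∀ x : K, π (x : ℂ) = Algebra.trace ℚ K x := fun x => by
    have := LinearMap.congr_fun hπ x
    exact this
  have htr : ∀ x : K, IsIntegral ℤ (x : ℂ) → ∃ z : ℤ, (z : ℚ) = Algebra.trace ℚ K x := by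
    intro x hx
    have h1 : IsIntegral ℤ x := by
      have : IsIntegral ℤ (algebraMap K ℂ x) := hx
      exact (isIntegral_algebraMap_iff (algebraMap K ℂ).injective).1 this
    have h2 : IsIntegral ℤ (Algebra.trace ℚ K x) := Algebra.isIntegral_trace h1
    obtain ⟨z, hz⟩ := IsIntegrallyClosed.isIntegral_iff.1 h2
    exact ⟨z, by simpa using hz⟩
  choose b hb using fun n => htr ⟨a n, haK n⟩ (hint n)
  refine ⟨π, b, fun n => ?_, ?_, ?_⟩
  · rw [hb n, ← hπ']
  · intro h0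
    have h1 := hb 1
    have e : (⟨a 1, haK 1⟩ : K) = 1 := Subtype.ext h.2.1
    rw [h0, e] at h1
    have h2 : Algebra.trace ℚ K 1 = (Module.finrank ℚ K : ℚ) := by
      have := Algebra.trace_algebraMap (R := ℚ) (S := K) (1 : ℚ)
      simpa using this
    rw [h2] at h1
    have h3 : 0 < Module.finrank ℚ K := Module.finrank_pos
    have h4 : (0 : ℚ) < (Module.finrank ℚ K : ℚ) := by exact_mod_cast h3
    rw [← h1] at h4
    simp at h4
  · intro p hp hpi n hn hpn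
    unfold UnitAbove at hpi
    rw [not_not] at hpi
    obtain ⟨m, hm⟩ := hpi
    obtain ⟨l, rfl⟩ := hpn
    have hl : l < p := by
      rw [sq] at hn
      exact lt_of_mul_lt_mul_left hn (Nat.zero_le p)
    rcases Nat.eq_zero_or_pos l with rfl | hl0
    · have h1 := hb (p * 0)
      have e : (⟨a (p * 0), haK (p * 0)⟩ : K) = 0 := Subtype.ext h.1
      rw [e, map_zero] at h1
      have : b (p * 0) = 0 := by exact_mod_cast h1
      rw [this]
      exact dvd_zero _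
    · have hnd : ¬ p ∣ l := Nat.not_dvd_of_pos_of_lt hl0 hl
      have e := h.2.2 p hp l
      rw [if_neg hnd, sub_zero] at e
      refine dvd_trace (x := ⟨a (p * l), haK _⟩) (m := m) hp (hint _) ?_ (hb _)
      show IsIntegral ℤ ((a (p * l)) ^ m / (p : ℂ))
      rw [e]
      have e2 : (a p * a l) ^ m / (p : ℂ) = (a p ^ m / (p : ℂ)) * (a l) ^ m := by ring
      rw [e2]
      exact hm.mul ((hint l).pow m)

end

end Run7.h635.OD
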