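import Pool.Agent.Run7.h635.OD.Lev
import Pool.Agent.Run7.h635.OD.Thp
import Pool.Agent.Run7.h323.OD.Delta

/-! `q`-expansions of modular forms of level one are homogeneous polynomials in `w`, `w⁻`. -/

set_option autoImplicit false

open PowerSeries

namespace Run7.h635.OD

open H809.OD MatrixGroups UpperHalfPlane ModularForm Run7.h323.OD

/-- rational power series over `ℂ` -/
noncomputable def upc : ℚ⟦X⟧ →+* ℂ⟦X⟧ := PowerSeries.map (algebraMap ℚ ℂ)

/-- homogeneous polynomials of degree `k` in `w`, `w⁻`, complex coefficients. -/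
noncomputable def TH (k : ℕ) : Submodule ℂ ℂ⟦X⟧ :=
  Submodule.span ℂ (Set.range fun i : Fin (k + 1) => upc (tm k i))

lemma tm_mem {k i : ℕ} (hi : i ≤ k) : upc (tm k i) ∈ TH k :=
  Submodule.subset_span ⟨⟨i, Nat.lt_succ_iff.2 hi⟩, rfl⟩

lemma TH_mul {k l : ℕ} {F G : ℂ⟦X⟧} (hF : F ∈ TH k) (hG : G ∈ TH l) : F * G ∈ TH (k + l) := by
  induction hF using Submodule.span_induction with
  | mem F hF =>
    obtain ⟨i, rfl⟩ := hF
    induction hG using Submodule.span_induction with
    | mem G hG =>
      obtain ⟨j, rfl⟩ := hG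
      dsimp only
      have hi : (i : ℕ) ≤ k := Nat.lt_succ_iff.1 i.2
      have hj : (j : ℕ) ≤ l := Nat.lt_succ_iff.1 j.2
      rw [← map_mul]
      have e : tm k i * tm l j = tm (k + l) (i + j) := by
        unfold tm
        have e1 : k + l - (i + j) = (k - i) + (l - j) := by omega
        rw [e1, pow_add, pow_add]
        ring
      rw [e]
      exact tm_mem (by omega)
    | zero => rw [mul_zero]; exact zero_mem _
    | add x y _ _ hx hy => rw [mul_add]; exact add_mem hx hy
    | smul c x _ hx => rw [mul_smul_comm]; exact Submodule.smul_mem _ _ hx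
  | zero => rw [zero_mul]; exact zero_mem _
  | add x y _ _ hx hy => rw [add_mul]; exact add_mem hx hy
  | smul c x _ hx => rw [smul_mul_assoc]; exact Submodule.smul_mem _ _ hx

lemma TH_one : (1 : ℂ⟦X⟧) ∈ TH 0 := by
  have : upc (tm 0 0) = 1 := by simp [tm]
  rw [← this]
  exact tm_mem le_rfl

lemma TH_pow {k : ℕ} {F : ℂ⟦X⟧} (hF : F ∈ TH k) (n : ℕ) : F ^ n ∈ TH (n * k) := by
  induction n with
  | zero => rw [pow_zero, Nat.zero_mul]; exact TH_one
  | succ n ih => rw [pow_succ, Nat.succ_mul]; exact TH_mul ih hF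

lemma nsmul_TH {k : ℕ} {F : ℂ⟦X⟧} (hF : F ∈ TH k) (z : ℤ) : (z : ℂ⟦X⟧) * F ∈ TH k := by
  rw [← zsmul_eq_mul]
  exact zsmul_mem hF z

lemma g4_mem : upc g4 ∈ TH 4 := by
  have e : g4 = ((16 : ℤ) : ℚ⟦X⟧) * tm 4 0 + ((-16 : ℤ) : ℚ⟦X⟧) * tm 4 2 + tm 4 4 := by
    simp only [g4, tm]
    push_cast
    norm_num
    ring
  rw [e, map_add, map_add, map_mul, map_mul, map_intCast, map_intCast]
  exact add_mem (add_mem (nsmul_TH (tm_mem (by omega)) _) (nsmul_TH (tm_mem (by omega)) _))
    (tm_mem le_rfl)

lemma g6_mem : upc g6 ∈ TH 6 := by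
  have e : g6 = ((-64 : ℤ) : ℚ⟦X⟧) * tm 6 0 + ((96 : ℤ) : ℚ⟦X⟧) * tm 6 2 +
      ((-30 : ℤ) : ℚ⟦X⟧) * tm 6 4 + ((-1 : ℤ) : ℚ⟦X⟧) * tm 6 6 := by
    simp only [g6, tm]
    push_cast
    norm_num
    ring
  rw [e, map_add, map_add, map_add, map_mul, map_mul, map_mul, map_mul, map_intCast, map_intCast,
    map_intCast, map_intCast]
  exact add_mem (add_mem (add_mem (nsmul_TH (tm_mem (by omega)) _)
    (nsmul_TH (tm_mem (by omega)) _)) (nsmul_TH (tm_mem (by omega)) _)) (nsmul_TH (tm_mem le_rfl) _)

/-- the discriminant. -/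
lemma disc_mem (ht : Theta) : qExpansion 1 discriminant ∈ TH 12 := by
  have e1 : qExpansion 1 discriminant = upc ZZ := by
    rw [← YY_eq_ZZ ht]
    ext n
    have h1 := disc_eq n
    have h2 : (⇑CuspForm.discriminant : ℍ → ℂ) = discriminant := rfl
    rw [h2] at h1
    rw [h1, upc, coeff_map, YY_coeff]
    simp
  have e2 : (16 : ℚ⟦X⟧) * ZZ = tm 12 8 - tm 12 10 := by
    unfold ZZ tm
    rw [ht.ng_w]
    ring
  have e3 : (16 : ℂ) • upc ZZ = upc (tm 12 8) - upc (tm 12 10) := by
    rw [← map_sub, ← e2, map_mul, map_ofNat, smul_eq_C_mul]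
    congr 1
  have e4 : upc ZZ = (1 / 16 : ℂ) • ((16 : ℂ) • upc ZZ) := by
    rw [smul_smul]; norm_num
  rw [e1, e4, e3]
  exact Submodule.smul_mem _ _ (sub_mem (tm_mem (by omega)) (tm_mem (by omega)))

/-- **Structure**: `q`-expansions of level one. -/
theorem struct (ht : Theta) (he : S_Eis) : ∀ (k : ℕ) (f : ModularForm 𝒮ℒ (k : ℤ)),
    qExpansion 1 f ∈ TH k := by
  obtain ⟨G, hG⟩ := he.e4
  obtain ⟨H, hH⟩ := he.e6
  have hGm : qExpansion 1 G ∈ TH 4 := by rw [hG]; exact g4_mem
  have hHm : qExpansion 1 H ∈ TH 6 := by rw [hH]; exact g6_mem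
  have hw0 : constantCoeff w = 1 := by
    rw [← coeff_zero_eq_constantCoeff_apply]; exact ht.w_zero
  have hn0 : constantCoeff (ng w) = 1 := by
    rw [← coeff_zero_eq_constantCoeff_apply, coeff_ng, ht.w_zero]; norm_num
  have hG0 : (qExpansion 1 G).coeff 0 = 1 := by
    rw [hG, coeff_map, coeff_zero_eq_constantCoeff_apply]
    simp only [g4, map_add, map_sub, map_mul, map_pow, hw0, hn0, map_ofNat]
    norm_num
  have hH0 : (qExpansion 1 H).coeff 0 = 1 := by
    rw [hH, coeff_map, coeff_zero_eq_constantCoeff_apply]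
    simp only [g6, map_add, map_sub, map_mul, map_pow, hw0, hn0, map_ofNat]
    norm_num
  -- a form of weight `k` with constant coefficient `1`
  have hexist : ∀ k : ℕ, 4 ≤ k → Even k → ∃ P : ModularForm 𝒮ℒ (k : ℤ),
      qExpansion 1 P ∈ TH k ∧ (qExpansion 1 P).coeff 0 = 1 := by
    intro k hk hk2
    obtain ⟨x, y, hxy⟩ : ∃ x y : ℕ, x * 4 + y * 6 = k := by
      obtain ⟨l, rfl⟩ := hk2
      rcases Nat.even_or_odd l with ⟨m, rfl⟩ | ⟨m, rfl⟩
      · exact ⟨m, 0, by ring⟩
      · exact ⟨m - 1, 1, by omega⟩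
    refine ⟨ModularForm.mcast (by push_cast [← hxy]; ring) ((G.pow x).mul (H.pow y)), ?_, ?_⟩
    · rw [ModularForm.qExpansion_mcast, ModularForm.qExpansion_mul one_pos one_mem_strictPeriods_SL,
        ModularForm.qExpansion_pow one_pos one_mem_strictPeriods_SL,
        ModularForm.qExpansion_pow one_pos one_mem_strictPeriods_SL, ← hxy]
      exact TH_mul (TH_pow hGm x) (TH_pow hHm y)
    · rw [ModularForm.qExpansion_mcast, ModularForm.qExpansion_mul one_pos one_mem_strictPeriods_SL,
        ModularForm.qExpansion_pow one_pos one_mem_strictPeriods_SL,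
        ModularForm.qExpansion_pow one_pos one_mem_strictPeriods_SL,
        coeff_zero_eq_constantCoeff_apply, map_mul, map_pow, map_pow,
        ← coeff_zero_eq_constantCoeff_apply, ← coeff_zero_eq_constantCoeff_apply, hG0, hH0]
      simp
  intro k
  induction k using Nat.strong_induction_on with
  | _ k ih =>
    intro f
    -- forms with vanishing constant coefficient
    have hcusp : ∀ g : ModularForm 𝒮ℒ (k : ℤ), (qExpansion 1 g).coeff 0 = 0 →
        qExpansion 1 g ∈ TH k := by
      intro g hg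
      rw [qExpansion_eq_qExpansion_discriminant_mul g hg]
      rcases Nat.lt_or_ge k 12 with hk | hk
      · have h0 : (CuspForm.discriminantEquiv (toCuspForm g hg)) = 0 :=
          rank_zero_iff_forall_zero.mp (levelOne_neg_weight_rank_zero (by omega)) _
        rw [h0]
        have : qExpansion 1 (⇑(0 : ModularForm 𝒮ℒ ((k : ℤ) - 12))) = 0 := by
          rw [FunLike.coe_zero]; exact qExpansion_zero 1
        rw [this, mul_zero]
        exact zero_mem _
      · have h1 := ih (k - 12) (by omega) (ModularForm.mcast (by omega)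
          (CuspForm.discriminantEquiv (toCuspForm g hg)))
        rw [ModularForm.qExpansion_mcast] at h1
        have h2 := TH_mul (disc_mem ht) h1
        rwa [Nat.add_sub_cancel' hk] at h2
    rcases Nat.even_or_odd k with hk2 | hk2
    · rcases Nat.lt_or_ge k 4 with hk | hk
      · interval_cases k
        · obtain ⟨c, hc⟩ := ModularFormClass.levelOne_weight_zero_const f
          have : qExpansion 1 f = c • (1 : ℂ⟦X⟧) := by
            have h2 : (⇑f : ℍ → ℂ) = c • ⇑(1 : ModularForm 𝒮ℒ 0) := by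
              funext z
              have := congrFun hc z
              simpa using this
            rw [h2, ModularForm.qExpansion_smul one_pos one_mem_strictPeriods_SL,
              ModularForm.qExpansion_one]
          rw [this]
          exact Submodule.smul_mem _ _ TH_one
        · exact absurd hk2 (by decide)
        · have h0 : f = 0 := rank_zero_iff_forall_zero.mp levelOne_weight_two_rank_zero f
          rw [h0]
          have : qExpansion 1 (⇑(0 : ModularForm 𝒮ℒ ((2 : ℕ) : ℤ))) = 0 := by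
            rw [FunLike.coe_zero]; exact qExpansion_zero 1
          rw [this]
          exact zero_mem _
        · exact absurd hk2 (by decide)
      · obtain ⟨P, hP1, hP2⟩ := hexist k hk hk2
        have h1 := hcusp (f - (qExpansion 1 f).coeff 0 • P) (by
          rw [FunLike.coe_sub, ModularForm.qExpansion_sub one_pos one_mem_strictPeriods_SL,
            FunLike.coe_smul, ModularForm.qExpansion_smul one_pos one_mem_strictPeriods_SL,
            map_sub, PowerSeries.coeff_smul, hP2]
          simp)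
        rw [FunLike.coe_sub, ModularForm.qExpansion_sub one_pos one_mem_strictPeriods_SL,
          FunLike.coe_smul, ModularForm.qExpansion_smul one_pos one_mem_strictPeriods_SL] at h1
        have h2 := add_mem h1 (Submodule.smul_mem (TH k) ((qExpansion 1 f).coeff 0) hP1)
        rwa [sub_add_cancel] at h2
    · have h0 : f = 0 := levelOne_odd_weight_eq_zero (by exact_mod_cast hk2) f
      rw [h0]
      have : qExpansion 1 (⇑(0 : ModularForm 𝒮ℒ (k : ℤ))) = 0 := by
        rw [FunLike.coe_zero]; exact qExpansion_zero 1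
      rw [this]
      exact zero_mem _

end Run7.h635.OD
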