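import Pool.Agent.Run7.h635.OD.Thp
import Pool.Agent.Run7.h635.OD.Tr2

/-! Eigenforms which are theta polynomials: ordinary at some place above `p`. -/

set_option autoImplicit false

open PowerSeries

namespace Run7.h635.OD

open H809.OD

theorem thp2 (ht : Theta) (hm : S_Main) (ε : ℕ → ℤ) (k : ℕ) (hk : 3 ≤ k) (a : ℕ → ℂ)
    (c : Fin (k + 1) → ℂ)
    (hc : ∀ n, a n = ∑ i : Fin (k + 1), c i * ((coeff n (tm k i) : ℚ) : ℂ))
    (h : HeckeRel ε k a) : PosLog (fun p => UnitAbove (a p) p) := by
  classical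
  -- integral coefficients
  have hint : ∀ i : Fin (k + 1), ∃ g : ℤ⟦X⟧, PowerSeries.map (Int.castRingHom ℚ) g = tm k i :=
    fun i => tm_int ht k i
  choose g hg using hint
  have hgc : ∀ (i : Fin (k + 1)) n, ((coeff n (g i) : ℤ) : ℚ) = coeff n (tm k i) := fun i n => by
    rw [← hg i, coeff_map]; rfl
  obtain ⟨π, b, hb, hb1, hdiv⟩ := exists_trace2 c (fun i n => coeff n (g i)) h (fun n => by
    rw [hc n]
    refine Finset.sum_congr rfl fun i _ => ?_
    rw [← hgc]
    push_cast
    rfl)
  -- the rational form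
  have hbq : ∀ n, (b n : ℚ) = ∑ i : Fin (k + 1), π (c i) * coeff n (tm k i) := by
    intro n
    rw [hb n, hc n, map_sum]
    refine Finset.sum_congr rfl fun i _ => ?_
    have e : c i * ((coeff n (tm k i) : ℚ) : ℂ) = (coeff n (tm k i) : ℚ) • c i := by
      rw [Algebra.smul_def]
      simp [mul_comm]
    rw [e, map_smul, smul_eq_mul, mul_comm]
  -- the odd part, as a polynomial
  set R0 : Polynomial ℚ := ∑ i : Fin (k + 1), Polynomial.C (π (c i)) *
    ((1 - 8 * Polynomial.X) ^ (i : ℕ) - (1 - 8 * Polynomial.X) ^ (k - i)) with hR0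
  have hdeg0 : R0.natDegree ≤ k := by
    rw [hR0]
    refine Polynomial.natDegree_sum_le_of_forall_le _ _ fun i _ => ?_
    refine (Polynomial.natDegree_C_mul_le _ _).trans ?_
    have h1 : (1 - 8 * Polynomial.X : Polynomial ℚ).natDegree ≤ 1 := by
      have : (1 - 8 * Polynomial.X : Polynomial ℚ) =
        Polynomial.C (-8) * Polynomial.X + Polynomial.C 1 := by
        simp only [map_neg, map_one, map_ofNat]
        ring
      rw [this]
      exact Polynomial.natDegree_linear_le
    have hik : (i : ℕ) ≤ k := Nat.lt_succ_iff.1 i.2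
    refine (Polynomial.natDegree_sub_le _ _).trans (max_le ?_ ?_)
    · refine Polynomial.natDegree_pow_le.trans ?_
      calc (i : ℕ) * (1 - 8 * Polynomial.X : Polynomial ℚ).natDegree ≤ i * 1 :=
            Nat.mul_le_mul_left _ h1
        _ ≤ k := by omega
    · refine Polynomial.natDegree_pow_le.trans ?_
      calc (k - i : ℕ) * (1 - 8 * Polynomial.X : Polynomial ℚ).natDegree ≤ (k - i) * 1 :=
            Nat.mul_le_mul_left _ h1
        _ ≤ k := by omega
  have hR0c : ∀ n, coeff n (w ^ k * Polynomial.aeval u R0) = if Odd n then 2 * (b n : ℚ) else 0 := by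
    intro n
    have e1 : w ^ k * Polynomial.aeval u R0 =
        ∑ i : Fin (k + 1), C (π (c i)) * (tm k i - ng (tm k i)) := by
      rw [hR0, map_sum, Finset.mul_sum]
      refine Finset.sum_congr rfl fun i _ => ?_
      have hik : (i : ℕ) ≤ k := Nat.lt_succ_iff.1 i.2
      rw [ng_tm k i hik, tm_eq ht k i hik, tm_eq ht k (k - i) (Nat.sub_le _ _), map_mul, map_sub,
        Polynomial.aeval_C]
      have e2 : (algebraMap ℚ ℚ⟦X⟧) (π (c i)) = C (π (c i)) := rfl
      rw [e2]
      ring
    rw [e1, map_sum]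
    have e2 : ∀ i : Fin (k + 1), coeff n (C (π (c i)) * (tm k i - ng (tm k i))) =
        (1 - (-1) ^ n) * (π (c i) * coeff n (tm k i)) := by
      intro i
      rw [coeff_C_mul, map_sub, coeff_ng]
      ring
    rw [Finset.sum_congr rfl fun i _ => e2 i, ← Finset.mul_sum, ← hbq]
    split_ifs with hn
    · rw [hn.neg_one_pow]; ring
    · rw [(Nat.not_odd_iff_even.1 hn).neg_one_pow]; ring
  -- clearing denominators
  obtain ⟨m, hmM, hmR⟩ := IsLocalization.integerNormalization_spec (nonZeroDivisors ℤ) R0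
  set R := IsLocalization.integerNormalization (nonZeroDivisors ℤ) R0 with hR
  have hm0 : m ≠ 0 := nonZeroDivisors.ne_zero hmM
  have hae : Polynomial.aeval u R = C (m : ℚ) * Polynomial.aeval u R0 := by
    have e1 : Polynomial.aeval u R = Polynomial.aeval u (R.map (algebraMap ℤ ℚ)) := by
      rw [Polynomial.aeval_map_algebraMap]
    rw [e1, hmR, map_zsmul, zsmul_eq_mul]
    congr 1
    simp
  have hRdeg : R.natDegree ≤ k := by
    have e1 : (R.map (algebraMap ℤ ℚ)).natDegree = R.natDegree :=
      Polynomial.natDegree_map_eq_of_injective (RingHom.injective_int _) _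
    rw [← e1, hmR]
    exact (Polynomial.natDegree_smul_le _ _).trans hdeg0
  have hcoef : ∀ n, coeff n (w ^ (k - 2 + 2) * Polynomial.aeval u R) =
      ((if Odd n then 2 * m * b n else 0 : ℤ) : ℚ) := by
    intro n
    have e1 : w ^ (k - 2 + 2) * Polynomial.aeval u R =
        C (m : ℚ) * (w ^ k * Polynomial.aeval u R0) := by
      rw [hae, Nat.sub_add_cancel (by omega : 2 ≤ k)]
      ring
    rw [e1, coeff_C_mul, hR0c]
    split_ifs with hn
    · push_cast; ring
    · simp
  have hRne : R ≠ 0 := by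
    intro h0
    have h1 := hcoef 1
    rw [h0, map_zero, mul_zero, map_zero, if_pos odd_one] at h1
    have h2 : (2 * m * b 1 : ℤ) = 0 := by exact_mod_cast h1.symm
    simp [hm0, hb1] at h2
  refine hm (k - 2) R (fun n => if Odd n then 2 * m * b n else 0)
    (fun p => UnitAbove (a p) p) (by omega) hRne (by omega) hcoef ?_ ?_
  · intro n hn
    rw [if_neg (Nat.not_odd_iff_even.2 hn)]
  · intro p hp hP n hnp hpn
    split_ifs with hn
    · exact Dvd.dvd.mul_left (hdiv p hp hP n hnp hpn) _
    · exact dvd_zero _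

end Run7.h635.OD
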