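import Pool.Agent.Run7.h635.OD.L1
import Pool.Agent.Run7.h635.OD.Thp2
import Pool.Agent.Run7.h635.OD.Eis
import Pool.Agent.Run7.h323.OD.Tau
import Pool.Agent.W97.TW.Delta
import Pool.Agent.W97.TW.Hecke

/-! Eigenforms of level one. -/

set_option autoImplicit false

open PowerSeries

namespace Run7.h635.OD

open H809.OD MatrixGroups UpperHalfPlane ModularForm CongruenceSubgroup Pool.Agent.W97.TW

/-- forms on `SL(2, ℤ)` as forms on `Γ_0(1)` -/
noncomputable def toG0 {k : ℤ} (f : CuspForm 𝒮ℒ k) :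
    CuspForm (Gamma0 1 : Subgroup (GL (Fin 2) ℝ)) k where
  toFun := f
  slash_action_eq' g hg := f.slash_action_eq' g (coe_Gamma0_one_le 1 hg)
  holo' := f.holo'
  zero_at_cusps' hc := f.zero_at_cusps' (hc.mono (coe_Gamma0_one_le 1))

/-- the coefficients -/
noncomputable def cf {k : ℤ} (f : CuspForm 𝒮ℒ k) (n : ℕ) : ℂ := (qExpansion 1 f).coeff n

lemma A_toG0 {k : ℤ} (f : CuspForm 𝒮ℒ k) (n : ℕ) : A (toG0 f) n = cf f n := rfl

lemma cf_zero {k : ℤ} (f : CuspForm 𝒮ℒ k) : cf f 0 = 0 :=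
  CuspFormClass.qExpansion_coeff_zero f one_pos one_mem_strictPeriods_SL

lemma cf_hecke {k : ℕ} (hk : 1 ≤ k) (f : CuspForm 𝒮ℒ (k : ℤ)) (h1 : cf f 1 = 1) {p : ℕ}
    (hp : p.Prime) {c : ℂ} (hc : ∀ z : ℍ, (p : ℂ) ^ ((k : ℤ) - 1) * f (ofComplex ((p : ℂ) * z)) +
      (∑ b ∈ Finset.range p, f (ofComplex (((z : ℂ) + b) / p))) / p = c * f z) (n : ℕ) :
    cf f (p * n) = cf f p * cf f n -
      if p ∣ n then (((fun _ => 1 : ℕ → ℤ) p : ℤ) : ℂ) * (p : ℂ) ^ (k - 1) * cf f (n / p) else 0 := by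
  have hnd : ¬ p ∣ 1 := fun h => hp.one_lt.ne' (Nat.dvd_one.1 h)
  have key : ∀ m, B (toG0 f) p m = c * A (toG0 f) m := fun m => by
    refine hecke_rec (toG0 f) hp.pos (fun z => ?_) m
    unfold heckeT
    rw [if_neg hnd]
    exact hc z
  have e : ((p : ℂ) ^ ((k : ℤ) - 1)) = (p : ℂ) ^ (k - 1) := by
    rw [show (k : ℤ) - 1 = ((k - 1 : ℕ) : ℤ) by omega, zpow_natCast]
  have k1 := key 1
  have kn := key n
  unfold B at k1 kn
  simp only [A_toG0, if_neg hnd, h1, mul_one, mul_zero, zero_add, e] at k1 kn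
  rw [k1]
  split_ifs at kn ⊢ with hd
  · push_cast
    linear_combination kn
  · linear_combination kn

lemma weight_ge {k : ℤ} (f : CuspForm 𝒮ℒ k) (h1 : cf f 1 = 1) : 12 ≤ k := by
  by_contra hk
  have h := CuspForm.rank_eq_zero_of_weight_lt_twelve (k := k) (by omega)
  rw [rank_zero_iff] at h
  have hf : f = 0 := Subsingleton.elim _ _
  rw [hf] at h1
  unfold cf at h1
  have e : (⇑(0 : CuspForm 𝒮ℒ k) : ℍ → ℂ) = 0 := rfl
  rw [e, qExpansion_zero, map_zero] at h1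
  exact zero_ne_one h1

theorem thp_int (ht : Theta) {ε : ℕ → ℤ} {k : ℕ} {a : ℕ → ℂ} (c : Fin (k + 1) → ℂ)
    (hc : ∀ n, a n = ∑ i : Fin (k + 1), c i * ((coeff n (tm k i) : ℚ) : ℂ))
    (h : HeckeRel ε k a) (n : ℕ) : IsIntegral ℤ (a n) := by
  have hint : ∀ i : Fin (k + 1), ∃ g : ℤ⟦X⟧, PowerSeries.map (Int.castRingHom ℚ) g = tm k i :=
    fun i => tm_int ht k i
  choose g hg using hint
  have hgc : ∀ (i : Fin (k + 1)) n, ((coeff n (g i) : ℤ) : ℚ) = coeff n (tm k i) := fun i n => by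
    rw [← hg i, coeff_map]; rfl
  refine integral_a c (fun i n => coeff n (g i)) h (fun n => ?_) n
  rw [hc n]
  refine Finset.sum_congr rfl fun i _ => ?_
  rw [← hgc]
  push_cast
  rfl

/-- **Level one**, logarithmic form. -/
theorem level_one (ht : Theta) (hm : S_Main) (k : ℤ) (f : CuspForm 𝒮ℒ k)
    (h1 : (qExpansion 1 f).coeff 1 = 1)
    (hh : ∀ p : ℕ, p.Prime → ∃ c : ℂ, ∀ z : ℍ,
      (p : ℂ) ^ (k - 1) * f (ofComplex ((p : ℂ) * z)) +
        (∑ b ∈ Finset.range p, f (ofComplex (((z : ℂ) + b) / p))) / p = c * f z) :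
    PosLog (fun p => UnitAbove ((qExpansion 1 f).coeff p) p) ∧
      ∀ n, IsIntegral ℤ ((qExpansion 1 f).coeff n) := by
  have hk12 := weight_ge f h1
  lift k to ℕ using (by omega)
  have hk : 3 ≤ k := by omega
  have hst := struct ht Eis.eis k (f : ModularForm 𝒮ℒ (k : ℤ))
  unfold TH at hst
  rw [Submodule.mem_span_range_iff_exists_fun] at hst
  obtain ⟨c, hc⟩ := hst
  have hcc : ∀ n, cf f n = ∑ i : Fin (k + 1), c i * ((coeff n (tm k i) : ℚ) : ℂ) := by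
    intro n
    have h2 := congrArg (coeff n) hc
    rw [map_sum] at h2
    have h3 : (coeff n) (qExpansion 1 ((f : ModularForm 𝒮ℒ (k : ℤ)) : ℍ → ℂ)) = cf f n := rfl
    rw [h3] at h2
    rw [← h2]
    refine Finset.sum_congr rfl fun i _ => ?_
    rw [coeff_smul, smul_eq_mul, upc, coeff_map]
    rfl
  have hrel : HeckeRel (fun _ => 1) k (cf f) := by
    refine ⟨cf_zero f, h1, fun p hp n => ?_⟩
    obtain ⟨c, hc⟩ := hh p hp
    exact cf_hecke (by omega) f h1 hp hc n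
  exact ⟨thp2 ht hm (fun _ => 1) k hk (cf f) c hcc hrel, thp_int ht c hcc hrel⟩

end Run7.h635.OD
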