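import Pool.Agent.Run7.h809.OD.Stm2

/-! Level one eigenforms of all weights: statements. -/

set_option autoImplicit false

open PowerSeries

namespace Run7.h635.OD

open H809.OD MatrixGroups

/-- `E₄ = 16 w⁴ - 16 w² (w⁻)² + (w⁻)⁴`. -/
noncomputable def g4 : ℚ⟦X⟧ := 16 * w ^ 4 - 16 * w ^ 2 * ng w ^ 2 + ng w ^ 4

/-- `E₆ = (2 w² - (w⁻)²) ((w⁻)⁴ + 32 w² (w⁻)² - 32 w⁴)`. -/
noncomputable def g6 : ℚ⟦X⟧ :=
  (2 * w ^ 2 - ng w ^ 2) * (ng w ^ 4 + 32 * w ^ 2 * ng w ^ 2 - 32 * w ^ 4)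

/-- EIS: `g4` and `g6` are `q`-expansions of modular forms of level one. -/
structure S_Eis : Prop where
  e4 : ∃ G : ModularForm 𝒮ℒ 4, UpperHalfPlane.qExpansion 1 G = PowerSeries.map (algebraMap ℚ ℂ) g4
  e6 : ∃ H : ModularForm 𝒮ℒ 6, UpperHalfPlane.qExpansion 1 H = PowerSeries.map (algebraMap ℚ ℂ) g6

end Run7.h635.OD
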